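import Mathlib
import Pool.Agent.H914R3.LF.Fin

set_option autoImplicit false

open Complex Filter Topology Set
open scoped Manifold ContDiff

namespace Pool.Agent.Results.MP_6b7ec3_an.SchottkyExample

open Pool.Agent.H914R3.LF

/-- There are a compact connected complex surface `M` and a domain `Ω` in `M` with `C^∞` Levi-flat
boundary, with a `C^∞` defining function `ρ` for which `-(-ρ)^η` is strictly plurisubharmonic on
`Ω` near the boundary for some `η` in `(0, 1)`, and with a nonconstant bounded holomorphic function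
on `Ω`. -/
theorem result : ∃ (M : Type) (_ : TopologicalSpace M) (_ : ChartedSpace (ℂ × ℂ) M),
    IsManifold 𝓘(ℂ, ℂ × ℂ) ω M ∧ T2Space M ∧ SecondCountableTopology M ∧ CompactSpace M ∧
    ConnectedSpace M ∧
    ∃ (Ω : Set M) (ρ : M → ℝ), IsSmoothDomain Ω ρ ∧ IsLeviFlat Ω ρ ∧ HasPosDFExponent Ω ρ ∧
      ∃ f : M → ℂ, MDifferentiableOn 𝓘(ℂ, ℂ × ℂ) 𝓘(ℂ) f Ω ∧ (∀ x ∈ Ω, ‖f x‖ ≤ 1) ∧
        ∃ x ∈ Ω, ∃ y ∈ Ω, f x ≠ f y :=
  ⟨X, inferInstance, inferInstance, inferInstance, inferInstance, inferInstance, inferInstance,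
    inferInstance, example_exists⟩

end Pool.Agent.Results.MP_6b7ec3_an.SchottkyExample
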